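import Pool.Agent.MWLE.StmtsA
import Pool.Agent.Helper36_MWGN.CMW

/-!
# MWLE row BTS: the special form with at most `n` lights
-/

namespace Pool.Agent.MWLE.H69

open Pool.Agent.Helper14_MV Pool.Agent.Helper2_MV
open Pool.Agent.MWF (dbl)
open Pool.Agent.MWGN (Gz Tau)
open Pool.Agent.MWGN.H36 (tr ctx rr_flatMap tail dup mv dbl_idem)
open Pool.Agent.MWLE

theorem dbl_snoc (l : List ℕ) (c : ℕ) : dbl (l ++ [c]) = dbl l ++ [c, c] := by
  simp [dbl]

/-- the blocks -/
theorem dec (Q : ℕ → Bool) (v : List ℕ) : ∃ (N : ℕ) (C : ℕ → List ℕ) (z : ℕ → ℕ) (e : List ℕ),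
    dq Q v = (List.range N).flatMap (fun i => dbl (C i) ++ [z i]) ++ dbl e ∧
      v.filter Q = (List.range N).map z := by
  induction v using List.reverseRecOn with
  | nil => exact ⟨0, fun _ => [], fun _ => 0, [], rfl, rfl⟩
  | append_singleton v c ih =>
    obtain ⟨N, C, z, e, h1, h2⟩ := ih
    have hd : dq Q (v ++ [c]) = dq Q v ++ (if Q c then [c] else [c, c]) := by
      simp [dq]
    cases hc : Q c with
    | true =>
      refine ⟨N + 1, fun i => if i = N then e else C i, fun i => if i = N then c else z i, [],
        ?_, ?_⟩
      · rw [hd, h1, hc, List.range_succ, List.flatMap_append]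
        have e1 : (List.range N).flatMap (fun i => dbl (if i = N then e else C i) ++
            [if i = N then c else z i]) =
            (List.range N).flatMap (fun i => dbl (C i) ++ [z i]) := by
          apply List.flatMap_congr
          intro i hi
          have : i ≠ N := by
            have := List.mem_range.1 hi
            omega
          rw [if_neg this, if_neg this]
        rw [e1]
        simp [dbl]
      · rw [List.filter_append, h2, List.range_succ, List.map_append]
        have e1 : (List.range N).map (fun i => if i = N then c else z i) =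
            (List.range N).map z := by
          apply List.map_congr_left
          intro i hi
          have : i ≠ N := by
            have := List.mem_range.1 hi
            omega
          rw [if_neg this]
        rw [e1]
        simp [hc]
    | false =>
      refine ⟨N, C, z, e ++ [c], ?_, ?_⟩
      · rw [hd, h1, hc, dbl_snoc]
        simp
      · rw [List.filter_append, h2]
        simp [hc]

/-- **BTS** -/
theorem bts : BtsStmt := by
  intro β hG n hLE Q p v q x hn hnd hq
  obtain ⟨N, C, z, e, h1, h2⟩ := dec Q v
  rw [h1]
  have hmem : ∀ i < N, z i ∈ q := by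
    intro i hi
    have h3 : z i ∈ v.filter Q := by
      rw [h2]
      exact List.mem_map_of_mem (List.mem_range.2 hi)
    rw [List.mem_filter] at h3
    exact hq _ h3.1 h3.2
  have hinj : ∀ i < N, ∀ j < N, z i = z j → i = j := by
    rw [h2] at hnd
    intro i hi j hj hij
    exact List.inj_on_of_nodup_map hnd (List.mem_range.2 hi) (List.mem_range.2 hj) hij
  have hN : N ≤ n := by
    have : (v.filter Q).length = N := by rw [h2]; simp
    omega
  cases N with
  | zero =>
    simp only [List.range_zero, List.flatMap_nil, List.nil_append]
    have k1 := (mv hG (A := p ++ [x]) (x := x) (by simp) e q).symm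
    have k2 := dup hG (A := p ++ [x]) (x := x) (by simp) (dbl e ++ q)
    have k3 := mv hG (A := p ++ [x, x]) (x := x) (by simp) e q
    simp only [List.append_assoc, List.cons_append, List.nil_append] at k1 k2 k3
    exact tr k1 (tr k2 k3)
  | succ m =>
    obtain ⟨τ, S, rest, t1, t2, t3⟩ := tail z (dbl e ++ q) (Finset.range (m + 1))
      (fun i hi => List.mem_append_right _ (hmem i (Finset.mem_range.1 hi)))
      (fun i hi j hj hij => hinj i (Finset.mem_range.1 hi) j (Finset.mem_range.1 hj) hij)
    have hτ : Tau τ m := ⟨t1, fun i => by rw [t2, Finset.mem_range]; omega⟩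
    have hle := hLE m (by omega) τ hτ [x] S (fun i => [z i]) (fun i => dbl (C i))
    have h3 : RR β ((List.range (m + 1)).flatMap (fun i => dbl (C i) ++ [z i]))
        (lw (fun i => [z i]) (fun i => dbl (C i)) (m + 1)) := by
      unfold lw
      apply rr_flatMap
      intro i _
      have := (dbl_idem hG (C i)).append (RR.refl (β := β) [z i])
      simpa only [List.append_assoc] using this
    have form : ∀ A : List ℕ, x ∈ A →
        RR β (A ++ ((List.range (m + 1)).flatMap (fun i => dbl (C i) ++ [z i]) ++
          (dbl e ++ x :: q)))
        (A ++ (lw (fun i => [z i]) (fun i => dbl (C i)) (m + 1) ++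
          ([x] ++ (τ.flatMap (fun i => S i ++ [z i]) ++ rest)))) := by
      intro A hA
      have k1 := (mv hG (A := A ++ (List.range (m + 1)).flatMap (fun i => dbl (C i) ++ [z i]))
        (x := x) (List.mem_append_left _ hA) e q).symm
      rw [t3] at k1
      have k2 := ctx h3 A ([x] ++ (τ.flatMap (fun i => S i ++ [z i]) ++ rest))
      simp only [List.append_assoc, List.cons_append, List.nil_append] at k1 k2 ⊢
      exact tr k1 k2
    have f1 := form (p ++ [x]) (by simp)
    have f2 := form (p ++ [x, x]) (by simp)
    have k3 := ctx hle p rest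
    simp only [List.append_assoc, List.cons_append, List.nil_append] at f1 f2 k3 ⊢
    exact tr f1 (tr k3 f2.symm)

end Pool.Agent.MWLE.H69
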